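import Pool.Agent.J4.H44.KL.Mom

/-!
# Higher correlations imply lower ones: infinitely many levels suffice (RH)

`N T x y` is the number of tuples of distinct zeros whose distances to the last one, in units of the
mean spacing, lie in the box with sides `[x_i, y_i]` (the `N_k(T; B)` of the problem, `k - 1` being the
number of the sides).  On RH a further variable in a long interval `[-L, L]` multiplies the count by
`2L`, up to `O(√(1 + log L))` times the number of zeros.  Together with the same property of the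
sine kernel determinants, this shows that the `(k+1)`-level conjecture for all boxes implies the
`k`-level conjecture for all boxes (and the same for the upper and for the lower bounds alone), so
that the `k`-level conjecture for infinitely many `k` implies it for all `k`.
-/

open Filter Topology MeasureTheory

namespace Pool.Agent.Results.MP_67227b_nt.HigherLevelsSuffice

/-- multiplicity of `s` as a zero of the Riemann zeta function (order of vanishing at `s`) -/
noncomputable def zmult (s : ℂ) : ℕ := analyticOrderNatAt riemannZeta s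

/-- the number of nontrivial zeros of `ζ` with ordinate in `(0, t]`, with multiplicity -/
noncomputable def NZ (t : ℝ) : ℕ :=
  ∑ᶠ s ∈ {s : ℂ | riemannZeta s = 0 ∧ 0 < s.re ∧ s.re < 1 ∧ 0 < s.im ∧ s.im ≤ t}, zmult s

/-- for `n ≥ 1`: the `n`-th positive ordinate `γ n` of a nontrivial zero of `ζ`, the ordinates being
listed in nondecreasing order and repeated according to multiplicity -/
noncomputable def γ (n : ℕ) : ℝ := sInf {t : ℝ | n ≤ NZ t}

/-- the number of tuples of distinct indices (one index `j none`, and one index `j (some i)` for each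
side `i` of the box) with ordinates `≤ T` such that
`(γ_{j (some i)} - γ_{j none}) log T / 2π ∈ [x_i, y_i]` for all `i` -/
noncomputable def N {ι : Type} (T : ℝ) (x y : ι → ℝ) : ℕ :=
  {j : Option ι → ℕ | Function.Injective j ∧ (∀ i, 1 ≤ j i ∧ γ (j i) ≤ T) ∧
    ∀ i : ι, (γ (j (some i)) - γ (j none)) * (Real.log T / (2 * Real.pi)) ∈
      Set.Icc (x i) (y i)}.ncard

/-- the coordinates of the point `(u, 0)` -/
def pt {ι : Type} (u : ι → ℝ) (o : Option ι) : ℝ := o.elim 0 u

/-- the matrix `A(u, 0)` with the entries `sin π(u_i - u_j) / (π(u_i - u_j))` and `1` on the diagonal -/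
noncomputable def A {ι : Type} (u : ι → ℝ) : Matrix (Option ι) (Option ι) ℝ :=
  Matrix.of fun i j => Real.sinc (Real.pi * (pt u i - pt u j))

/-- the number of tuples in the box, divided by the asymptotic number of zeros -/
noncomputable def ratio {m : ℕ} (T : ℝ) (x y : Fin m → ℝ) : ℝ :=
  (N T x y : ℝ) / (T / (2 * Real.pi) * Real.log T)

/-- the predicted limit: the integral of `det A(u, 0)` over the box -/
noncomputable def J {m : ℕ} (x y : Fin m → ℝ) : ℝ := ∫ u in Set.Icc x y, (A u).det

/-- the `(m+1)`-level conjecture: `N_{m+1}(T; B) / ((T/2π) log T) → ∫_B det A(u, 0) du` for all boxes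
`B` in `ℝ ^ m` -/
def Level (m : ℕ) : Prop :=
  ∀ x y : Fin m → ℝ, (∀ i, x i ≤ y i) → Tendsto (fun T : ℝ => ratio T x y) atTop (𝓝 (J x y))

/-- its upper half: the upper limit is at most the predicted limit, for all boxes -/
def LevelUpper (m : ℕ) : Prop :=
  ∀ x y : Fin m → ℝ, (∀ i, x i ≤ y i) → ∀ ε : ℝ, 0 < ε → ∀ᶠ T : ℝ in atTop, ratio T x y ≤ J x y + ε

/-- its lower half: the lower limit is at least the predicted limit, for all boxes -/
def LevelLower (m : ℕ) : Prop :=
  ∀ x y : Fin m → ℝ, (∀ i, x i ≤ y i) → ∀ ε : ℝ, 0 < ε → ∀ᶠ T : ℝ in atTop, J x y - ε ≤ ratio T x y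

lemma rhs_of (hRH : RiemannHypothesis) : SP.RHs := by
  intro s h0 h1 hz
  apply hRH s hz
  · rintro ⟨n, hn⟩
    rw [hn] at h0
    simp at h0
    have : (0 : ℝ) ≤ n := Nat.cast_nonneg n
    linarith
  · intro h
    rw [h] at h1
    simp at h1

/-- the count with a further variable in `[-L, L]` -/
lemma step (hRH : RiemannHypothesis) (m : ℕ) (x y : Fin m → ℝ) :
    ∃ C : ℝ, 0 < C ∧ ∀ L : ℝ, 1 ≤ L → ∀ᶠ T : ℝ in atTop,
      |ratio T (Fin.cons (-L) x : Fin (m + 1) → ℝ) (Fin.cons L y) - 2 * L * ratio T x y| ≤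
        C * Real.sqrt (1 + Real.log L) := by
  obtain ⟨C, hC, h⟩ := Pool.Agent.J4.H44.KL.marg (rhs_of hRH) x y
  have hpi := Real.pi_pos
  refine ⟨C * (2 * Real.pi), by positivity, fun L hL => ?_⟩
  filter_upwards [h L hL, eventually_gt_atTop 1] with T hT hT1
  have hl := Real.log_pos hT1
  have hD : 0 < T / (2 * Real.pi) * Real.log T := by positivity
  have e : ratio T (Fin.cons (-L) x : Fin (m + 1) → ℝ) (Fin.cons L y) - 2 * L * ratio T x y =
      ((N T (Fin.cons (-L) x : Fin (m + 1) → ℝ) (Fin.cons L y) : ℝ) - 2 * L * N T x y) /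
        (T / (2 * Real.pi) * Real.log T) := by
    unfold ratio
    ring
  rw [e, abs_div, abs_of_pos hD, div_le_iff₀ hD]
  refine le_trans hT (le_of_eq ?_)
  field_simp

/-- the predicted limits with a further variable in `[-L, L]` -/
lemma stepJ (m : ℕ) (x y : Fin m → ℝ) : ∃ C : ℝ, 0 < C ∧ ∀ L : ℝ, 1 ≤ L →
    |J (Fin.cons (-L) x : Fin (m + 1) → ℝ) (Fin.cons L y) - 2 * L * J x y| ≤ C :=
  Pool.Agent.J4.H44.KL.int_cons x y

lemma choose_L (C C' ε : ℝ) (hC : 0 < C) (hC' : 0 < C') (hε : 0 < ε) : ∃ L : ℝ, 1 ≤ L ∧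
    C * Real.sqrt (1 + Real.log L) + 1 + C' ≤ 2 * L * ε := by
  obtain ⟨K, hK⟩ : ∃ K : ℝ, K = (C + 1 + C') / ε + 1 := ⟨_, rfl⟩
  have hK1 : 1 ≤ K := by
    rw [hK]
    have : 0 ≤ (C + 1 + C') / ε := by positivity
    linarith
  refine ⟨K ^ 2, one_le_pow₀ hK1, ?_⟩
  have hl : Real.log (K ^ 2) ≤ 2 * (K - 1) := by
    rw [Real.log_pow]
    have := Real.log_le_sub_one_of_pos (show 0 < K by linarith)
    push_cast
    linarith
  have h1 : Real.sqrt (1 + Real.log (K ^ 2)) ≤ K := by
    rw [Real.sqrt_le_left (by linarith)]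
    nlinarith [sq_nonneg (K - 1)]
  have h2 : C + 1 + C' ≤ K * ε := by
    rw [hK, add_mul, div_mul_cancel₀ _ hε.ne']
    linarith
  have h3 : C * Real.sqrt (1 + Real.log (K ^ 2)) ≤ C * K := mul_le_mul_of_nonneg_left h1 hC.le
  have h4 : 1 + C' ≤ (1 + C') * K := le_mul_of_one_le_right (by linarith) hK1
  have h5 : K * (C + 1 + C') ≤ K * (K * ε) := mul_le_mul_of_nonneg_left h2 (by linarith)
  have h6 : 0 ≤ K * (K * ε) := by positivity
  nlinarith

lemma cons_le (m : ℕ) (x y : Fin m → ℝ) (hxy : ∀ i, x i ≤ y i) (L : ℝ) (hL : 1 ≤ L) :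
    ∀ i, (Fin.cons (-L) x : Fin (m + 1) → ℝ) i ≤ (Fin.cons L y : Fin (m + 1) → ℝ) i := by
  intro i
  refine Fin.cases ?_ (fun j => ?_) i
  · simp only [Fin.cons_zero]
    linarith
  · simpa using hxy j

lemma upper_step (hRH : RiemannHypothesis) (m : ℕ) (h : LevelUpper (m + 1)) : LevelUpper m := by
  intro x y hxy ε hε
  obtain ⟨C, hC, h1⟩ := step hRH m x y
  obtain ⟨C', hC', h2⟩ := stepJ m x y
  obtain ⟨L, hL, h3⟩ := choose_L C C' ε hC hC' hε
  filter_upwards [h1 L hL, h _ _ (cons_le m x y hxy L hL) 1 one_pos] with T k1 k2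
  have k3 := (abs_le.1 k1).1
  have k4 := (abs_le.1 (h2 L hL)).2
  have k5 : 2 * L * ratio T x y ≤ 2 * L * (J x y + ε) := by linarith
  exact le_of_mul_le_mul_left k5 (by linarith)

lemma lower_step (hRH : RiemannHypothesis) (m : ℕ) (h : LevelLower (m + 1)) : LevelLower m := by
  intro x y hxy ε hε
  obtain ⟨C, hC, h1⟩ := step hRH m x y
  obtain ⟨C', hC', h2⟩ := stepJ m x y
  obtain ⟨L, hL, h3⟩ := choose_L C C' ε hC hC' hε
  filter_upwards [h1 L hL, h _ _ (cons_le m x y hxy L hL) 1 one_pos] with T k1 k2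
  have k3 := (abs_le.1 k1).2
  have k4 := (abs_le.1 (h2 L hL)).1
  have k5 : 2 * L * (J x y - ε) ≤ 2 * L * ratio T x y := by linarith
  exact le_of_mul_le_mul_left k5 (by linarith)

lemma level_iff (m : ℕ) : Level m ↔ LevelUpper m ∧ LevelLower m := by
  constructor
  · intro h
    constructor
    · intro x y hxy ε hε
      have := (Metric.tendsto_nhds.1 (h x y hxy)) ε hε
      filter_upwards [this] with T hT
      rw [Real.dist_eq] at hT
      linarith [(abs_lt.1 hT).2]
    · intro x y hxy ε hε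
      have := (Metric.tendsto_nhds.1 (h x y hxy)) ε hε
      filter_upwards [this] with T hT
      rw [Real.dist_eq] at hT
      linarith [(abs_lt.1 hT).1]
  · rintro ⟨h1, h2⟩ x y hxy
    rw [Metric.tendsto_nhds]
    intro ε hε
    filter_upwards [h1 x y hxy (ε / 2) (by linarith), h2 x y hxy (ε / 2) (by linarith)] with T k1 k2
    rw [Real.dist_eq, abs_lt]
    constructor <;> linarith

lemma down (P : ℕ → Prop) (h : ∀ m, P (m + 1) → P m) : (∀ m, P m) ↔ ∃ᶠ m in atTop, P m := by
  constructor
  · intro hP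
    exact (Eventually.of_forall hP).frequently
  · intro hf m
    obtain ⟨n, hn, hPn⟩ := (frequently_atTop.1 hf) m
    obtain ⟨d, rfl⟩ := Nat.exists_eq_add_of_le hn
    clear hn
    induction d with
    | zero => exact hPn
    | succ d ih => exact ih (h _ hPn)

/-- **Higher correlations imply lower ones (RH).**
(1) For every box in `ℝ ^ m` there is `C` such that for all `L ≥ 1` and all `T ≥ T₀(L)`, the number of
`(m+2)`-tuples with the further distance in `[-L, L]` differs from `2L` times the number of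
`(m+1)`-tuples by at most `C √(1 + log L) (T/2π) log T`.
(2) The upper bound `limsup N_{m+2}(T; B) / ((T/2π) log T) ≤ ∫_B det A` for all boxes `B ⊂ ℝ ^ (m+1)`
implies the same bound with `m + 1` and `m` instead of `m + 2` and `m + 1`.  (3) The same for the
lower bounds.  (4) The `(m+2)`-level conjecture implies the `(m+1)`-level conjecture.
(5) The `k`-level conjecture holds for all `k` if it holds for infinitely many `k`. -/
theorem result (hRH : RiemannHypothesis) :
    (∀ (m : ℕ) (x y : Fin m → ℝ), ∃ C : ℝ, ∀ L : ℝ, 1 ≤ L → ∀ᶠ T : ℝ in atTop,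
      |(N T (Fin.cons (-L) x : Fin (m + 1) → ℝ) (Fin.cons L y) : ℝ) - 2 * L * N T x y| ≤
        C * Real.sqrt (1 + Real.log L) * (T / (2 * Real.pi) * Real.log T)) ∧
    (∀ m : ℕ, LevelUpper (m + 1) → LevelUpper m) ∧
    (∀ m : ℕ, LevelLower (m + 1) → LevelLower m) ∧
    (∀ m : ℕ, Level (m + 1) → Level m) ∧
    ((∀ m : ℕ, Level m) ↔ ∃ᶠ m in atTop, Level m) := by
  have h4 : ∀ m : ℕ, Level (m + 1) → Level m := by
    intro m h
    rw [level_iff] at h ⊢
    exact ⟨upper_step hRH m h.1, lower_step hRH m h.2⟩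
  refine ⟨fun m x y => ?_, upper_step hRH, lower_step hRH, h4, down Level h4⟩
  obtain ⟨C, hC, h⟩ := step hRH m x y
  refine ⟨C, fun L hL => ?_⟩
  filter_upwards [h L hL, eventually_gt_atTop 1] with T hT hT1
  have hpi := Real.pi_pos
  have hl := Real.log_pos hT1
  have hD : 0 < T / (2 * Real.pi) * Real.log T := by positivity
  have e : ratio T (Fin.cons (-L) x : Fin (m + 1) → ℝ) (Fin.cons L y) - 2 * L * ratio T x y =
      ((N T (Fin.cons (-L) x : Fin (m + 1) → ℝ) (Fin.cons L y) : ℝ) - 2 * L * N T x y) /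
        (T / (2 * Real.pi) * Real.log T) := by
    unfold ratio
    ring
  rw [e, abs_div, abs_of_pos hD, div_le_iff₀ hD] at hT
  exact hT

end Pool.Agent.Results.MP_67227b_nt.HigherLevelsSuffice
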