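import Pool.Agent.J4.H44.LP.Dq
import Pool.Agent.J4.H44.LP.Ab
import Pool.Agent.J4.H44.LP.Pe

set_option autoImplicit false

/-!
# Moments of the zeta function and mean squares of long Dirichlet polynomials
-/

namespace Pool.Agent.Results.MP_56b8f5_nt.LongPolynomials

open Complex MeasureTheory Filter Topology Set Pool.Agent.TH535.SM Pool.Agent.R446.KR Pool.Agent.J4.H44.LP
open scoped ContDiff

/-- The moment `∫_0^T |ζ(1/2+it)|^{2k} dt`. -/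
noncomputable def mom (k : ℕ) (T : ℝ) : ℝ := ∫ t in (0:ℝ)..T, ‖riemannZeta (1 / 2 + I * t)‖ ^ (2 * k)

/-- The number `d_k(n)` of ordered factorisations of `n` into `k` positive factors. -/
def d (k n : ℕ) : ℕ := (Nat.finMulAntidiag k n).card

/-- The smoothed Dirichlet polynomial `∑_n d_k(n) φ(log n / log T) n^{-1/2-it}` (a finite sum, `φ` having
compact support; its length is `T^b` if `φ` vanishes on the right of `b`). -/
noncomputable def D (k : ℕ) (φ : ℝ → ℂ) (T t : ℝ) : ℂ :=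
  ∑' n : ℕ, (d k n : ℂ) * φ (Real.log n / Real.log T) * (n : ℂ) ^ (-(1 / 2 + I * t))

/-- Its mean square `∫ |D|² dt` over `T^ϑ ≤ t ≤ T`. -/
noncomputable def msq (k : ℕ) (φ : ℝ → ℂ) (ϑ T : ℝ) : ℝ := ∫ t in (T ^ ϑ)..T, ‖D k φ T t‖ ^ 2

/-- Complementary cut-offs: smooth, compactly supported, `|φ(v)|² + |ψ(k-v)|² = 1` for `0 ≤ v ≤ k`. -/
structure Pair (k : ℕ) (φ ψ : ℝ → ℂ) : Prop where
  smooth₁ : ContDiff ℝ ∞ φ
  smooth₂ : ContDiff ℝ ∞ ψ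
  compact₁ : HasCompactSupport φ
  compact₂ : HasCompactSupport ψ
  compl : ∀ v : ℝ, 0 ≤ v → v ≤ k → ‖φ v‖ ^ 2 + ‖ψ (k - v)‖ ^ 2 = 1

/-- The arithmetic constant `a_k`. -/
noncomputable def a (k : ℕ) : ℝ := ∏' p : Nat.Primes, (1 - 1 / (p : ℝ)) ^ (k ^ 2) *
  ∑' m : ℕ, ((m + k - 1).choose m : ℝ) ^ 2 / (p : ℝ) ^ m

/-- The error terms: small moments, and the moment over short intervals. -/
noncomputable def err (k : ℕ) (ϑ T : ℝ) : ℝ :=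
  1 + (2 * mom k (T ^ (1 / 2 : ℝ)) + (mom k (T + T ^ (1 / 2 : ℝ)) - mom k (T - T ^ (1 / 2 : ℝ)))) +
    mom k (2 * T ^ ϑ)

lemma mom_eq (k : ℕ) (T : ℝ) : mom k T = M (zk k) T := by
  unfold mom M
  refine intervalIntegral.integral_congr fun t _ => ?_
  unfold zk ze
  rw [norm_pow, ← pow_mul, mul_comm k 2, mul_comm I]

lemma mom_fun (k : ℕ) : mom k = M (zk k) := funext (mom_eq k)

lemma msq_eq (k : ℕ) (φ : ℝ → ℂ) (ϑ T : ℝ) : msq k φ ϑ T = PD k φ ϑ T := rfl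

lemma err_eq (k : ℕ) (ϑ T : ℝ) : err k ϑ T = Br (mom k) ϑ T := rfl

lemma ident {k : ℕ} {φ ψ : ℝ → ℂ} (h : Pair k φ ψ) {ϑ : ℝ} (hϑ0 : 0 < ϑ) (hϑ : ϑ < 1) {η : ℝ} (hη : 0 < η) :
    ∃ ϑ' C T0 : ℝ, 0 < ϑ' ∧ ϑ' < 1 ∧ 0 ≤ C ∧ ∀ T : ℝ, T0 ≤ T →
      |(msq k φ ϑ T + msq k ψ ϑ T) - mom k T| ≤ η * mom k T + C * Br (mom k) ϑ' T := by
  obtain ⟨ξ1, hξ1, h1⟩ := mk_TF h.smooth₁ h.compact₁
  obtain ⟨ξ2, hξ2, h2⟩ := mk_TF h.smooth₂ h.compact₂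
  obtain ⟨ϑ', C, T0, a1, a2, hC, -, hb⟩ := pair_PD k h1 hξ1 h2 hξ2 h.compl (ε := 1 / 2) (by norm_num) hη hϑ0 hϑ
  refine ⟨ϑ', C, T0, by linarith, a2, hC, fun T hT => ?_⟩
  have := hb T hT
  rw [mom_fun]
  rw [Er_eq] at this
  exact this

theorem result :
    -- complementary cut-offs with any prescribed lengths exist
    (∀ (k : ℕ) (θ δ : ℝ), 0 < δ → ∃ φ ψ : ℝ → ℂ, Pair k φ ψ ∧
      (∀ v, θ + δ ≤ v → φ v = 0) ∧ (∀ v, 0 ≤ v → v ≤ θ - δ → φ v = 1) ∧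
      (∀ v, (k : ℝ) - θ + δ ≤ v → ψ v = 0) ∧ (∀ v, 0 ≤ v → v ≤ (k : ℝ) - θ - δ → ψ v = 1) ∧
      (2 * θ = k → φ = ψ)) ∧
    (∀ (k : ℕ) (φ ψ : ℝ → ℂ), Pair k φ ψ → ∀ ϑ : ℝ, 0 < ϑ → ϑ < 1 →
      -- the approximate identity
      (∀ η : ℝ, 0 < η → ∃ ϑ' C T0 : ℝ, 0 < ϑ' ∧ ϑ' < 1 ∧ 0 ≤ C ∧ ∀ T : ℝ, T0 ≤ T →
        |(msq k φ ϑ T + msq k ψ ϑ T) - mom k T| ≤ η * mom k T + C * err k ϑ' T) ∧
      -- asymptotics
      (∀ (q : ℕ) (c : ℝ), Tendsto (fun T => mom k T / (T * Real.log T ^ q)) atTop (𝓝 c) ↔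
        Tendsto (fun T => (msq k φ ϑ T + msq k ψ ϑ T) / (T * Real.log T ^ q)) atTop (𝓝 c)) ∧
      -- order of magnitude
      (∀ q : ℕ, (∃ C : ℝ, ∀ᶠ T : ℝ in atTop, mom k T ≤ C * (T * Real.log T ^ q)) ↔
        ∃ C : ℝ, ∀ᶠ T : ℝ in atTop, msq k φ ϑ T + msq k ψ ϑ T ≤ C * (T * Real.log T ^ q))) ∧
    -- Q1 and one polynomial of length `T^{2+δ}`
    (∀ φ : ℝ → ℂ, Pair 4 φ φ → ∀ ϑ : ℝ, 0 < ϑ → ϑ < 1 →
      (Tendsto (fun T : ℝ => (1 / T * mom 4 T) / (24024 * a 4 / Nat.factorial 16 * Real.log T ^ 16)) atTop (𝓝 1) ↔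
        Tendsto (fun T : ℝ => (1 / T * msq 4 φ ϑ T) / (12012 * a 4 / Nat.factorial 16 * Real.log T ^ 16)) atTop
          (𝓝 1))) := by
  refine ⟨fun k θ δ hδ => ?_, fun k φ ψ h ϑ hϑ0 hϑ => ⟨fun η hη => ident h hϑ0 hϑ hη, fun q c => ?_,
    fun q => ?_⟩, fun φ h ϑ hϑ0 hϑ => ?_⟩
  · refine ⟨fun v => (stp θ δ v : ℂ), fun v => (stp (k - θ) δ v : ℂ),
      ⟨stpc_smooth _ _, stpc_smooth _ _, stp_cs hδ, stp_cs hδ, fun v h0 h1 => ?_⟩, fun v hv => ?_,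
      fun v h0 hv => ?_, fun v hv => ?_, fun v h0 hv => ?_, fun h2 => ?_⟩
    · simp only [Complex.norm_real, Real.norm_eq_abs, sq_abs]
      exact stp_compl hδ h0 h1
    · simp only [stp_right hδ hv, Complex.ofReal_zero]
    · simp only [stp_one hδ h0 hv, Complex.ofReal_one]
    · simp only [stp_right hδ hv, Complex.ofReal_zero]
    · simp only [stp_one hδ h0 hv, Complex.ofReal_one]
    · have e : (k : ℝ) - θ = θ := by linarith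
      rw [e]
  · exact abs_iff (mom_fun k ▸ M_Gr k) q c fun η hη => ident h hϑ0 hϑ hη
  · exact abs_O (mom_fun k ▸ M_Gr k) q fun η hη => ident h hϑ0 hϑ hη
  · have key : ∀ c : ℝ, Tendsto (fun T => mom 4 T / (T * Real.log T ^ 16)) atTop (𝓝 c) ↔
        Tendsto (fun T => (msq 4 φ ϑ T + msq 4 φ ϑ T) / (T * Real.log T ^ 16)) atTop (𝓝 c) := fun c =>
      abs_iff (mom_fun 4 ▸ M_Gr 4) 16 c fun η hη => ident h hϑ0 hϑ hη
    obtain ⟨κ, hκ⟩ : ∃ κ : ℝ, κ = 24024 * a 4 / Nat.factorial 16 := ⟨_, rfl⟩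
    have hκ2 : 12012 * a 4 / Nat.factorial 16 = κ / 2 := by rw [hκ]; ring
    rw [← hκ, hκ2]
    by_cases h0 : κ = 0
    · rw [h0]
      simp
    · have e1 : (fun T : ℝ => (1 / T * mom 4 T) / (κ * Real.log T ^ 16)) =
          fun T : ℝ => (mom 4 T / (T * Real.log T ^ 16)) * κ⁻¹ := by
        funext T
        rw [div_mul_eq_div_div, div_mul_eq_div_div]
        ring
      have e2 : (fun T : ℝ => (1 / T * msq 4 φ ϑ T) / (κ / 2 * Real.log T ^ 16)) =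
          fun T : ℝ => ((msq 4 φ ϑ T + msq 4 φ ϑ T) / (T * Real.log T ^ 16)) * κ⁻¹ := by
        funext T
        rw [div_mul_eq_div_div, div_mul_eq_div_div]
        field_simp
        ring
      have e3 : ∀ f : ℝ → ℝ, Tendsto (fun T => f T * κ⁻¹) atTop (𝓝 1) ↔ Tendsto f atTop (𝓝 κ) := by
        intro f
        constructor
        · intro hf
          have := hf.mul_const κ
          simpa [mul_assoc, inv_mul_cancel₀ h0] using this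
        · intro hf
          have := hf.mul_const κ⁻¹
          rwa [mul_inv_cancel₀ h0] at this
      rw [e1, e2, e3, e3]
      exact key κ

end Pool.Agent.Results.MP_56b8f5_nt.LongPolynomials
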