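import Pool.Agent.J4.H44.LP.Sh3
import Pool.Agent.J4.H44.LP.Ak

set_option autoImplicit false

/-!
# The sixth moment from shifted moments whose shifts stay away from zero
-/

namespace Pool.Agent.Results.MP_39df77_nt.ShiftProgression

open Complex MeasureTheory Filter Topology Set Pool.Agent.TH535.SM Pool.Agent.R446.KR Pool.Agent.J4.H44.LP
open scoped ComplexConjugate

/-- The moment `M_3(T)`. -/
noncomputable def M3 (T : ℝ) : ℝ := 1 / T * ∫ t in (0:ℝ)..T, ‖riemannZeta (1 / 2 + I * t)‖ ^ 6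

/-- The arithmetic constant `a_3`. -/
noncomputable def a3 : ℝ := ∏' p : Nat.Primes, (1 - 1 / (p : ℝ)) ^ 9 *
  ∑' m : ℕ, ((m + 2).choose 2 : ℝ) ^ 2 / (p : ℝ) ^ m

/-- The normalised shifted sixth moment
`T⁻¹ (log T)⁻⁹ ∫_0^T ζ(1/2 + iα/log T + it)³ ζ(1/2 + iα/log T - it)³ dt`. -/
noncomputable def Q (α : ℝ) (T : ℝ) : ℂ :=
  (T : ℂ)⁻¹ * ((Real.log T : ℂ) ^ 9)⁻¹ *
    ∫ t in (0:ℝ)..T, riemannZeta (1 / 2 + I * α / Real.log T + I * t) ^ 3 *
      riemannZeta (1 / 2 + I * α / Real.log T - I * t) ^ 3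

/-- The exponentials `e^{-2iav}`, `a ∈ A`, span a dense set on a neighbourhood of `1 ≤ v ≤ 2`: every
exponential is a uniform limit of linear combinations of them. -/
def Complete (A : Set ℝ) : Prop := ∃ δ : ℝ, 0 < δ ∧ ∀ α ε : ℝ, 0 < ε →
  ∃ (s : Finset ℝ) (c : ℝ → ℂ), (∀ a ∈ s, a ∈ A) ∧ ∀ v : ℝ, 1 - δ ≤ v → v ≤ 2 + δ →
    ‖cexp (-(2 * α * v) * I) - ∑ a ∈ s, c a * cexp (-(2 * a * v) * I)‖ ≤ ε

/-- The density `γ` on `[0,3]` of the conjectured shifted sixth moments. -/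
noncomputable def dens (v : ℝ) : ℝ :=
  if v ≤ 1 then v ^ 8 / Nat.factorial 8
  else if v ≤ 2 then (-2 * v ^ 8 + 24 * v ^ 7 - 252 * v ^ 6 + 1512 * v ^ 5 - 4830 * v ^ 4 + 8568 * v ^ 3 -
    8484 * v ^ 2 + 4392 * v - 927) / Nat.factorial 8
  else (3 - v) ^ 8 / Nat.factorial 8

/-- The conjectured value of the shifted sixth moment, divided by `a_3`. -/
noncomputable def W (α : ℝ) : ℂ := ∫ v in (0:ℝ)..3, (dens v : ℂ) * cexp (-(2 * α * v) * I)

lemma M3_eq (T : ℝ) : M3 T = M (zk 3) T / T := by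
  unfold M3 M
  have e : ∫ t in (0:ℝ)..T, ‖riemannZeta (1 / 2 + I * t)‖ ^ 6 = ∫ t in (0:ℝ)..T, ‖zk 3 t‖ ^ 2 := by
    refine intervalIntegral.integral_congr fun t _ => ?_
    unfold zk ze
    rw [norm_pow, ← pow_mul, mul_comm I]
  rw [e, one_div_mul_eq_div]

lemma rat (T : ℝ) : M3 T / Real.log T ^ 9 = M (zk 3) T / NN (3 ^ 2) T := by
  rw [M3_eq, div_div]; rfl

lemma a3_eq : a3 = Pool.Agent.H306R2.aF (3:ℕ) := by
  rw [← aF_choose 3 (by norm_num)]
  unfold a3
  refine tprod_congr fun p => ?_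
  have e : ∀ m : ℕ, (m + 2).choose 2 = (m + 3 - 1).choose m := fun m => by
    have h1 : m + 3 - 1 = m + 2 := rfl
    rw [h1]
    exact Nat.choose_symm_of_eq_add (add_comm m 2)
  simp only [e]
  norm_num

lemma Q_eq (α T : ℝ) : Q α T = Qn 3 α T := by
  unfold Q Qn Cor NN
  have e : ∫ t in (0:ℝ)..T, riemannZeta (1 / 2 + I * α / Real.log T + I * t) ^ 3 *
      riemannZeta (1 / 2 + I * α / Real.log T - I * t) ^ 3 =
      ∫ t in (0:ℝ)..T, zk 3 (t + α / Real.log T) * conj (zk 3 (t + -(α / Real.log T))) := by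
    refine intervalIntegral.integral_congr fun t _ => ?_
    have e1 : (1 / 2 + I * α / Real.log T + I * t : ℂ) = 1 / 2 + ((t + α / Real.log T : ℝ) : ℂ) * I := by
      push_cast; ring
    have e2 : (1 / 2 + I * α / Real.log T - I * t : ℂ) =
        conj (1 / 2 + ((t + -(α / Real.log T) : ℝ) : ℂ) * I) := by
      rw [map_add, map_mul, conj_I, Complex.conj_ofReal, map_div₀, map_one, map_ofNat]
      push_cast
      ring
    unfold zk ze
    rw [e1, e2, riemannZeta_conj, ← map_pow]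
  rw [e, Complex.ofReal_mul, Complex.ofReal_pow, ← mul_inv]
  exact (div_eq_inv_mul _ _).symm

lemma ev_eq (α v : ℝ) : cexp (-(2 * α * v) * I) = ev α v := by
  unfold ev
  push_cast
  rfl

lemma dens_eq (v : ℝ) : dens v = γ v := rfl

lemma W_eq (α : ℝ) : W α = mod 3 (fun v => (γ v : ℂ)) α := by
  unfold W mod
  simp only [ev_eq, dens_eq]
  norm_num

lemma comp_iff (A : Set ℝ) : Complete A ↔ ∃ δ : ℝ, 0 < δ ∧ Cmp 3 A δ := by
  have e : ((3:ℕ):ℝ) - 1 = 2 := by norm_num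
  unfold Complete Cmp fc
  simp only [ev_eq, e]

lemma M3_lim {c : ℝ} (h : Tendsto (Qn 3 0) atTop (𝓝 (c : ℂ))) :
    Tendsto (fun T => M3 T / Real.log T ^ 9) atTop (𝓝 c) := by
  have := (Complex.continuous_re.tendsto _).comp h
  rw [Complex.ofReal_re] at this
  refine this.congr fun T => ?_
  simp only [Function.comp]
  rw [rat]
  unfold Qn
  rw [zero_div, Cor_zero, ← Complex.ofReal_div, Complex.ofReal_re]

/-- (0) Sets with infinitely many points in a bounded interval are complete, and so are one-sided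
arithmetic progressions `c m`, `m ≥ m₀`, of step `0 < c < π`.
Let `A` be complete. (1) If `Q(a,T)` converges for all `a ∈ A` then it converges for all real shifts, and
`M_3(T) / log⁹ T` converges. (2) If the limits are the conjectured ones for `a ∈ A` then they are for all
real shifts, and Q1 holds. (3) There are finitely many shifts in `A` such that `M_3(T) ≪ log⁹ T` if and only
if the moments with these shifts are bounded. -/
theorem result :
    (∀ (A : Set ℝ) (R : ℝ), (A ∩ Icc (-R) R).Infinite → Complete A) ∧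
    (∀ (A : Set ℝ) (c : ℝ) (m₀ : ℕ), 0 < c → c < Real.pi → (∀ m : ℕ, m₀ ≤ m → c * m ∈ A) → Complete A) ∧
    (∀ A : Set ℝ, Complete A →
      ((∀ a ∈ A, ∃ L : ℂ, Tendsto (Q a) atTop (𝓝 L)) →
        (∀ α : ℝ, ∃ L : ℂ, Tendsto (Q α) atTop (𝓝 L)) ∧
        ∃ c : ℝ, Tendsto (fun T => M3 T / Real.log T ^ 9) atTop (𝓝 c)) ∧
      ((∀ a ∈ A, Tendsto (Q a) atTop (𝓝 (a3 * W a))) →
        (∀ α : ℝ, Tendsto (Q α) atTop (𝓝 (a3 * W α))) ∧
        Tendsto (fun T => M3 T / (42 * a3 / Nat.factorial 9 * Real.log T ^ 9)) atTop (𝓝 1)) ∧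
      ∃ s : Finset ℝ, (∀ a ∈ s, a ∈ A) ∧
        ((∃ C : ℝ, ∀ᶠ T : ℝ in atTop, M3 T ≤ C * Real.log T ^ 9) ↔
          ∀ a ∈ s, ∃ B : ℝ, ∀ᶠ T : ℝ in atTop, ‖Q a T‖ ≤ B)) := by
  have hQ : ∀ α, Q α = Qn 3 α := fun α => funext (Q_eq α)
  refine ⟨fun A R hR => (comp_iff A).2 ⟨1, one_pos, cmp_of_infinite 3 hR 1⟩, fun A c m₀ hc hcp hA =>
    (comp_iff A).2 (cmp_of_prog 3 hc (by norm_num; exact hcp) hA), fun A hA => ?_⟩
  obtain ⟨δ, hδ, hC⟩ := (comp_iff A).1 hA
  simp only [hQ]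
  refine ⟨fun h => ?_, fun h => ?_, ?_⟩
  · have h' : ∀ a : ℝ, ∃ L : ℂ, a ∈ A → Tendsto (Qn 3 a) atTop (𝓝 L) := fun a => by
      by_cases ha : a ∈ A
      · obtain ⟨L, hL⟩ := h a ha
        exact ⟨L, fun _ => hL⟩
      · exact ⟨0, fun h => absurd h ha⟩
    choose G hG using h'
    refine ⟨fun α => ?_, ?_⟩
    · obtain ⟨l, hl, -⟩ := sh_all (k := 3) (by norm_num) hδ hC (G := G) hG α
      exact ⟨l, hl⟩
    · obtain ⟨m, hm⟩ := sh_M (k := 3) (by norm_num) hδ hC (G := G) hG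
      exact ⟨m, by simpa only [rat] using hm⟩
  · have h1 : ∀ α : ℝ, Tendsto (Qn 3 α) atTop (𝓝 (a3 * W α)) := by
      intro α
      rw [a3_eq, W_eq]
      refine sh_match (k := 3) (by norm_num) hδ hC (w := fun v => (γ v : ℂ)) ?_ (fun v h0 h1 => ?_)
        (fun v h0 h1 => ?_) (fun a ha => ?_) α
      · exact (Complex.continuous_ofReal.comp γ_cont).intervalIntegrable _ _
      · rw [γ_left h1]
        push_cast
        norm_num
      · rw [γ_right (by norm_num at h0; linarith)]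
        push_cast
        norm_num
      · have := h a ha
        rw [a3_eq, W_eq] at this
        exact this
    refine ⟨h1, ?_⟩
    have h0 := h1 0
    have hW : W 0 = ((42 / Nat.factorial 9 : ℝ) : ℂ) := by
      rw [← γ_int, W_eq]
      unfold mod ev
      rw [← intervalIntegral.integral_ofReal]
      norm_num
    rw [hW, ← Complex.ofReal_mul] at h0
    have h2 := M3_lim h0
    have hpos : 0 < a3 := by rw [a3_eq]; exact Pool.Agent.H306R2.aF_pos (by norm_num)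
    obtain ⟨κ, hκ⟩ : ∃ κ : ℝ, κ = 42 * a3 / Nat.factorial 9 := ⟨_, rfl⟩
    have hκ0 : 0 < κ := by rw [hκ]; positivity
    have e1 : a3 * (42 / Nat.factorial 9 : ℝ) = κ := by rw [hκ]; ring
    rw [e1] at h2
    rw [← hκ]
    have h3 := h2.mul_const κ⁻¹
    rw [mul_inv_cancel₀ hκ0.ne'] at h3
    refine h3.congr fun T => ?_
    rw [mul_comm κ, ← div_div, div_eq_mul_inv (_ / _) κ]
  · obtain ⟨s, hs, h⟩ := sh_O (k := 3) (by norm_num) hδ hC
    refine ⟨s, hs, Iff.trans ?_ h⟩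
    have e : ∀ C T : ℝ, 0 < T → (M3 T ≤ C * Real.log T ^ 9 ↔ M (zk 3) T ≤ C * NN (3 ^ 2) T) := by
      intro C T hT
      rw [M3_eq, div_le_iff₀ hT]
      unfold NN
      have : C * Real.log T ^ 9 * T = C * (T * Real.log T ^ 3 ^ 2) := by norm_num; ring
      rw [this]
    constructor
    · rintro ⟨C, hC⟩
      refine ⟨C, ?_⟩
      filter_upwards [hC, eventually_gt_atTop 0] with T h1 h3
      exact (e C T h3).1 h1
    · rintro ⟨C, hC⟩
      refine ⟨C, ?_⟩
      filter_upwards [hC, eventually_gt_atTop 0] with T h1 h3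
      exact (e C T h3).2 h1

end Pool.Agent.Results.MP_39df77_nt.ShiftProgression
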